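import Mathlib

/-!
Basic definitions for the duplicated random current model on `ℤ^d`
(helper library for MP_164cef_pr).
-/

namespace Pool.Agent.Hhelper98.RC

open MeasureTheory Set

variable {d : ℕ}

/-- Vertices of the lattice `ℤ^d`. -/
abbrev V (d : ℕ) := Fin d → ℤ

/-- Nearest-neighbour edges: `(x, i)` joins `x` and `x + e_i`. -/
abbrev Ed (d : ℕ) := V d × Fin d

/-- First endpoint. -/
def src (e : Ed d) : V d := e.1

/-- Second endpoint. -/
def tgt (e : Ed d) : V d := e.1 + Pi.single e.2 1

/-- Adjacency through an edge of `S`. -/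
def Adj (S : Set (Ed d)) (u v : V d) : Prop :=
  ∃ e ∈ S, (src e = u ∧ tgt e = v) ∨ (src e = v ∧ tgt e = u)

/-- `u` and `v` are joined by a path of edges of `S`. -/
def R (S : Set (Ed d)) : V d → V d → Prop := Relation.ReflTransGen (Adj S)

/-- Connected component of `u` in `S`. -/
def clu (S : Set (Ed d)) (u : V d) : Set (V d) := {v | R S u v}

/-- The component of `u` in `S` is infinite. -/
def Inft (S : Set (Ed d)) (u : V d) : Prop := (clu S u).Infinite

/-- Edges with at least one endpoint in `B`. -/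
def touch (B : Set (V d)) : Set (Ed d) := {e | src e ∈ B ∨ tgt e ∈ B}

/-- Edges with both endpoints in `B`. -/
def inner (B : Set (V d)) : Set (Ed d) := {e | src e ∈ B ∧ tgt e ∈ B}

/-- The box of radius `r` centred at `x`. -/
noncomputable def box (r : ℕ) (x : V d) : Finset (V d) :=
  Finset.Icc (x - fun _ => (r : ℤ)) (x + fun _ => (r : ℤ))

lemma mem_box {r : ℕ} {x y : V d} : y ∈ box r x ↔ ∀ i, x i - r ≤ y i ∧ y i ≤ x i + r := by
  unfold box
  rw [Finset.mem_Icc, Pi.le_def, Pi.le_def]
  simp only [Pi.sub_apply, Pi.add_apply]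
  exact ⟨fun h i => ⟨h.1 i, h.2 i⟩, fun h => ⟨fun i => (h i).1, fun i => (h i).2⟩⟩

lemma tgt_ne_src (e : Ed d) : tgt e ≠ src e := by
  intro h
  have := congrFun h e.2
  simp [tgt, src] at this

/-! ### Reachability -/

lemma Adj.symm {S : Set (Ed d)} {u v : V d} (h : Adj S u v) : Adj S v u := by
  obtain ⟨e, he, h⟩ := h
  exact ⟨e, he, h.symm⟩

lemma Adj.mono {S T : Set (Ed d)} (hST : S ⊆ T) {u v : V d} (h : Adj S u v) : Adj T u v := by
  obtain ⟨e, he, h⟩ := h
  exact ⟨e, hST he, h⟩

lemma R.refl (S : Set (Ed d)) (u : V d) : R S u u := Relation.ReflTransGen.refl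

lemma R.trans {S : Set (Ed d)} {u v w : V d} (h : R S u v) (h' : R S v w) : R S u w :=
  Relation.ReflTransGen.trans h h'

lemma R.symm {S : Set (Ed d)} {u v : V d} (h : R S u v) : R S v u := by
  induction h with
  | refl => exact R.refl S u
  | tail _ h ih => exact (Relation.ReflTransGen.single h.symm).trans ih

lemma R.mono {S T : Set (Ed d)} (hST : S ⊆ T) {u v : V d} (h : R S u v) : R T u v :=
  Relation.ReflTransGen.mono (fun _ _ h => Adj.mono hST h) _ _ h

lemma R.single {S : Set (Ed d)} {u v : V d} (h : Adj S u v) : R S u v :=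
  Relation.ReflTransGen.single h

lemma R.edge {S : Set (Ed d)} {e : Ed d} (he : e ∈ S) : R S (src e) (tgt e) :=
  R.single ⟨e, he, Or.inl ⟨rfl, rfl⟩⟩

lemma mem_clu {S : Set (Ed d)} {u v : V d} : v ∈ clu S u ↔ R S u v := Iff.rfl

lemma clu_mono {S T : Set (Ed d)} (hST : S ⊆ T) (u : V d) : clu S u ⊆ clu T u :=
  fun _ h => R.mono hST h

lemma clu_eq {S : Set (Ed d)} {u v : V d} (h : R S u v) : clu S u = clu S v := by
  ext w
  exact ⟨fun h' => R.trans h.symm h', fun h' => R.trans h h'⟩

lemma Inft.mono {S T : Set (Ed d)} (hST : S ⊆ T) {u : V d} (h : Inft S u) : Inft T u :=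
  Set.Infinite.mono (clu_mono hST u) h

lemma Inft.of_R {S : Set (Ed d)} {u v : V d} (h : Inft S u) (h' : R S u v) : Inft S v := by
  unfold Inft at *
  rwa [← clu_eq h']

/-! ### Parities -/

/-- Finitely supported sources. -/
abbrev U (d : ℕ) := V d →₀ ZMod 2

/-- The source at a single vertex. -/
noncomputable def de (v : V d) : U d := Finsupp.single v 1

/-- Boundary of an edge. -/
noncomputable def bb (e : Ed d) : U d := de (src e) + de (tgt e)

/-- Boundary of the restriction of `p` to a finite set of edges. -/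
noncomputable def bd (D : Finset (Ed d)) (p : Ed d → ZMod 2) : U d := ∑ e ∈ D, p e • bb e

/-- Boundary of `p` at a vertex. -/
def dv (p : Ed d → ZMod 2) (v : V d) : ZMod 2 :=
  ∑ i : Fin d, (p (v, i) + p (v - Pi.single i 1, i))

/-- Parity of a class: `0, 1, 2, 3` stand for current `0`, current `1`, even current `≥ 2`,
odd current `≥ 3`. -/
def par (c : Fin 4) : ZMod 2 := (c.val : ZMod 2)

/-- Class configurations. -/
abbrev X (d : ℕ) := Ed d → Fin 4

/-- Parity configuration of a class configuration. -/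
def pc (n : X d) : Ed d → ZMod 2 := fun e => par (n e)

/-- Class of the sum of two currents: `0`, `1`, or `≥ 2`. -/
def Mm (a b : Fin 4) : Fin 3 :=
  if a = 0 ∧ b = 0 then 0 else if (a = 1 ∧ b = 0) ∨ (a = 0 ∧ b = 1) then 1 else 2

/-- Class configuration of the sum. -/
def Mmap (n : X d × X d) : Ed d → Fin 3 := fun e => Mm (n.1 e) (n.2 e)

/-- Set of edges where a configuration does not vanish. -/
def opn {k : ℕ} (m : Ed d → Fin (k + 1)) : Set (Ed d) := {e | m e ≠ 0}

/-- Cylinder set. -/
def cyl {ι α : Type} (D : Finset ι) (c : ι → α) : Set (ι → α) := {n | ∀ e ∈ D, n e = c e}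

/-- Translation of configurations. -/
def shf {α : Type} (v : V d) (n : Ed d → α) : Ed d → α := fun e => n (e.1 + v, e.2)

end Pool.Agent.Hhelper98.RC
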