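import Mathlib
import Pool.Agent.Hhelper98.RC.Basic

/-!
Burton-Keane counting of box trifurcations (deterministic part), for MP_164cef_pr.
-/

namespace Pool.Agent.Hhelper98.RC

open MeasureTheory Set

variable {d : ℕ}

/-- box trifurcation -/
def TB (r : ℕ) (x : V d) (S : Set (Ed d)) : Prop :=
  inner (box r x : Set (V d)) ⊆ S ∧ ∃ u v w,
    Inft (S \ touch (box r x : Set (V d))) u ∧ Inft (S \ touch (box r x : Set (V d))) v ∧
    Inft (S \ touch (box r x : Set (V d))) w ∧
    ¬ R (S \ touch (box r x : Set (V d))) u v ∧ ¬ R (S \ touch (box r x : Set (V d))) u w ∧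
    ¬ R (S \ touch (box r x : Set (V d))) v w ∧ R S u x ∧ R S v x ∧ R S w x

/-! ### Connectedness of boxes -/

/-- moving one coordinate by a natural number of steps inside a box -/
lemma box_move (r : ℕ) (x : V d) (i : Fin d) (n : ℕ) : ∀ y : V d, y ∈ box r x →
    y + Pi.single i (n : ℤ) ∈ box r x →
    R (inner (box r x : Set (V d))) y (y + Pi.single i (n : ℤ)) := by
  induction n with
  | zero =>
    intro y _ _
    simpa using R.refl _ y
  | succ n ih =>
    intro y hy hz
    have hmid : y + Pi.single i (n : ℤ) ∈ box r x := by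
      rw [mem_box] at hy hz ⊢
      intro j
      have h1 := hy j
      have h2 := hz j
      by_cases hj : j = i
      · subst hj
        simp only [Pi.add_apply, Pi.single_eq_same] at h2 ⊢
        push_cast at h2
        constructor
        · have : (0 : ℤ) ≤ n := Int.natCast_nonneg n
          linarith [h1.1]
        · linarith [h2.2]
      · simp only [Pi.add_apply, Pi.single_eq_of_ne hj, add_zero] at h2 ⊢
        exact h1
    refine (ih y hy hmid).trans ?_
    have he : y + Pi.single i ((n + 1 : ℕ) : ℤ) = (y + Pi.single i (n : ℤ)) + Pi.single i 1 := by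
      rw [add_assoc, ← Pi.single_add]
      push_cast
      rfl
    have hz' := hz
    rw [he] at hz' ⊢
    have hin : ((y + Pi.single i (n : ℤ), i) : Ed d) ∈ inner (box r x : Set (V d)) :=
      ⟨Finset.mem_coe.2 hmid, Finset.mem_coe.2 hz'⟩
    exact R.edge hin

lemma box_coord (r : ℕ) (x : V d) (i : Fin d) {y : V d} {c : ℤ} (hy : y ∈ box r x)
    (hz : Function.update y i c ∈ box r x) :
    R (inner (box r x : Set (V d))) y (Function.update y i c) := by
  rcases le_total (y i) c with h | h
  · obtain ⟨n, hn⟩ := Int.eq_ofNat_of_zero_le (sub_nonneg.2 h)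
    have he : Function.update y i c = y + Pi.single i (n : ℤ) := by
      ext j
      by_cases hj : j = i
      · subst hj
        simp only [Function.update_self, Pi.add_apply, Pi.single_eq_same]
        rw [← hn]
        ring
      · simp [Function.update_of_ne hj, Pi.single_eq_of_ne hj]
    rw [he] at hz ⊢
    exact box_move r x i n y hy hz
  · obtain ⟨n, hn⟩ := Int.eq_ofNat_of_zero_le (sub_nonneg.2 h)
    have he : y = Function.update y i c + Pi.single i (n : ℤ) := by
      ext j
      by_cases hj : j = i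
      · subst hj
        simp only [Function.update_self, Pi.add_apply, Pi.single_eq_same]
        rw [← hn]
        ring
      · simp [Function.update_of_ne hj, Pi.single_eq_of_ne hj]
    have h2 := box_move r x i n (Function.update y i c) hz (by rw [← he]; exact hy)
    rw [← he] at h2
    exact h2.symm

theorem box_conn (r : ℕ) (x : V d) {y z : V d} (hy : y ∈ box r x) (hz : z ∈ box r x) :
    R (inner (box r x : Set (V d))) y z := by
  classical
  have key : ∀ s : Finset (Fin d), R (inner (box r x : Set (V d))) y (s.piecewise z y) := by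
    intro s
    induction s using Finset.induction_on with
    | empty => simpa using R.refl _ y
    | insert a s ha ih =>
      refine ih.trans ?_
      have hmem : ∀ t : Finset (Fin d), t.piecewise z y ∈ box r x := by
        intro t
        rw [mem_box] at hy hz ⊢
        intro j
        by_cases hj : j ∈ t
        · rw [Finset.piecewise_eq_of_mem _ _ _ hj]; exact hz j
        · rw [Finset.piecewise_eq_of_notMem _ _ _ hj]; exact hy j
      have he : (insert a s).piecewise z y = Function.update (s.piecewise z y) a (z a) :=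
        Finset.piecewise_insert _ _ _ _
      have h1 := hmem (insert a s)
      rw [he] at h1 ⊢
      exact box_coord r x a (hmem s) h1
  have := key Finset.univ
  simpa using this

/-! ### First entry and avoidance -/

/-- First entry of a path into a set. -/
lemma first_entry {S : Set (Ed d)} {A : Set (V d)} {y b : V d} (h : R S y b) (hb : b ∈ A) :
    ∃ z a, a ∈ A ∧ R (S \ touch A) y z ∧ (z = a ∨ (z ∉ A ∧ Adj S z a)) := by
  induction h using Relation.ReflTransGen.head_induction_on with
  | refl => exact ⟨b, b, hb, R.refl _ b, Or.inl rfl⟩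
  | @head a c hac hcb ih =>
    by_cases ha : a ∈ A
    · exact ⟨a, a, ha, R.refl _ a, Or.inl rfl⟩
    · by_cases hc : c ∈ A
      · exact ⟨a, c, hc, R.refl _ a, Or.inr ⟨ha, hac⟩⟩
      · obtain ⟨z, a', ha', hR, hz⟩ := ih
        refine ⟨z, a', ha', ?_, hz⟩
        refine (R.single ?_).trans hR
        obtain ⟨e, heS, he⟩ := hac
        refine ⟨e, ⟨heS, ?_⟩, he⟩
        intro ht
        rcases he with ⟨h1, h2⟩ | ⟨h1, h2⟩ <;> rcases ht with ht | ht
        · rw [h1] at ht; exact ha ht
        · rw [h2] at ht; exact hc ht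
        · rw [h1] at ht; exact hc ht
        · rw [h2] at ht; exact ha ht

/-- An edge between two vertices outside `B` does not touch `B`. -/
lemma adj_avoid {S : Set (Ed d)} {B : Set (V d)} {u v : V d} (h : Adj S u v) (hu : u ∉ B)
    (hv : v ∉ B) : Adj (S \ touch B) u v := by
  obtain ⟨e, heS, he⟩ := h
  refine ⟨e, ⟨heS, ?_⟩, he⟩
  intro ht
  rcases he with ⟨h1, h2⟩ | ⟨h1, h2⟩ <;> rcases ht with ht | ht
  · rw [h1] at ht; exact hu ht
  · rw [h2] at ht; exact hv ht
  · rw [h1] at ht; exact hv ht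
  · rw [h2] at ht; exact hu ht

/-- If a component avoids `B`, its connections are in `S \ touch B`. -/
lemma avoid_path {S S' : Set (Ed d)} {B : Set (V d)} (hS : S' ⊆ S) {y z : V d}
    (hB : ∀ w ∈ clu S' y, w ∉ B) (h : R S' y z) : R (S \ touch B) y z := by
  induction h with
  | refl => exact R.refl _ y
  | tail h1 h2 ih =>
    refine ih.trans (R.single ?_)
    exact adj_avoid (h2.mono hS) (hB _ h1) (hB _ (R.trans h1 (R.single h2)))

/-- `A` connected in `S`, disjoint from `B`; the component of `y` off `A` avoids `B`;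
then `y` is joined to `A` off `B`. -/
lemma avoid_join {S : Set (Ed d)} {A B : Set (V d)} (hAB : ∀ w ∈ A, w ∉ B)
    (hA : ∀ a ∈ A, ∀ b ∈ A, R (inner A) a b) (hAS : inner A ⊆ S) {y b : V d}
    (hB : ∀ w ∈ clu (S \ touch A) y, w ∉ B) (h : R S y b) (hb : b ∈ A) :
    R (S \ touch B) y b := by
  obtain ⟨z, a, ha, hR, hz⟩ := first_entry h hb
  have h1 : R (S \ touch B) y z := avoid_path sdiff_subset hB hR
  have h2 : R (S \ touch B) z a := by
    rcases hz with rfl | ⟨_, hz⟩
    · exact R.refl _ _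
    · exact R.single (adj_avoid hz (hB z hR) (hAB a ha))
  have h3 : R (S \ touch B) a b := by
    refine R.mono ?_ (hA a ha b hb)
    intro e he
    refine ⟨hAS he, ?_⟩
    rintro (ht | ht)
    · exact hAB _ he.1 ht
    · exact hAB _ he.2 ht
  exact (h1.trans h2).trans h3

/-- A vertex of `A` is isolated in `S \ touch A`. -/
lemma isolated {S : Set (Ed d)} {A : Set (V d)} {y z : V d} (hy : y ∈ A)
    (h : R (S \ touch A) y z) : z = y := by
  induction h with
  | refl => rfl
  | tail _ h2 ih =>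
    subst ih
    obtain ⟨e, heS, he⟩ := h2
    exfalso
    apply heS.2
    rcases he with ⟨h1, _⟩ | ⟨_, h1⟩
    · left; rw [h1]; exact hy
    · right; rw [h1]; exact hy

/-- If the component of `y` off `A` does not contain the base point of the connected set `B`
(disjoint from `A`), it avoids `B`. -/
lemma comp_avoid {S : Set (Ed d)} {A B : Set (V d)} (hAB : ∀ w ∈ A, w ∉ B)
    (hB : ∀ a ∈ B, ∀ b ∈ B, R (inner B) a b) (hBS : inner B ⊆ S) {y b : V d} (hb : b ∈ B)
    (h : ¬ R (S \ touch A) y b) : ∀ w ∈ clu (S \ touch A) y, w ∉ B := by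
  intro w hw hwB
  apply h
  refine R.trans hw ?_
  refine R.mono ?_ (hB w hwB b hb)
  intro e he
  refine ⟨hBS he, ?_⟩
  rintro (ht | ht)
  · exact hAB _ ht he.1
  · exact hAB _ ht he.2

/-! ### The abstract counting lemma -/

/-- three pairwise disconnected points of `Y`, all joined to `b`. -/
def Trip (S : Set (Ed d)) (A : Set (V d)) (b : V d) (Y : Finset (V d)) : Prop :=
  ∃ u v w, u ∈ Y ∧ v ∈ Y ∧ w ∈ Y ∧ ¬ R (S \ touch A) u v ∧ ¬ R (S \ touch A) u w ∧
    ¬ R (S \ touch A) v w ∧ R S u b ∧ R S v b ∧ R S w b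

/-- among the triple there is a point not connected to two given classes -/
lemma Trip.avoid_one {S : Set (Ed d)} {A : Set (V d)} {b : V d} {Y : Finset (V d)}
    (h : Trip S A b Y) (p : V d) : ∃ u ∈ Y, ¬ R (S \ touch A) u p ∧ R S u b := by
  obtain ⟨u, v, w, hu, hv, hw, h1, h2, h3, h4, h5, h6⟩ := h
  by_cases hup : R (S \ touch A) u p
  · exact ⟨v, hv, fun hvp => h1 (hup.trans hvp.symm), h5⟩
  · exact ⟨u, hu, hup, h4⟩

lemma Trip.avoid_two {S : Set (Ed d)} {A : Set (V d)} {b : V d} {Y : Finset (V d)}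
    (h : Trip S A b Y) (p q : V d) :
    ∃ u ∈ Y, ¬ R (S \ touch A) u p ∧ ¬ R (S \ touch A) u q ∧ R S u b := by
  obtain ⟨u, v, w, hu, hv, hw, h1, h2, h3, h4, h5, h6⟩ := h
  by_cases hup : R (S \ touch A) u p
  · by_cases hvq : R (S \ touch A) v q
    · exact ⟨w, hw, fun h => h2 (hup.trans h.symm), fun h => h3 (hvq.trans h.symm), h6⟩
    · exact ⟨v, hv, fun h => h1 (hup.trans h.symm), hvq, h5⟩
  · by_cases huq : R (S \ touch A) u q
    · by_cases hvp : R (S \ touch A) v p
      · exact ⟨w, hw, fun h => h3 (hvp.trans h.symm), fun h => h2 (huq.trans h.symm), h6⟩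
      · exact ⟨v, hv, hvp, fun h => h1 (huq.trans h.symm), h5⟩
    · exact ⟨u, hu, hup, huq, h4⟩

/-- Replace a point of the triple by an equivalent one. -/
lemma Trip.replace {S : Set (Ed d)} {A : Set (V d)} {b : V d} {Y : Finset (V d)}
    (h : Trip S A b Y) {y : V d} (hy : ∃ z ∈ Y.erase y, R (S \ touch A) z y) :
    Trip S A b (Y.erase y) := by
  obtain ⟨z, hz, hzy⟩ := hy
  obtain ⟨u, v, w, hu, hv, hw, h1, h2, h3, h4, h5, h6⟩ := h
  have hzyS : R S z y := R.mono sdiff_subset hzy
  by_cases huy : u = y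
  · subst huy
    have hvu : v ≠ u := fun h => h1 (by rw [h]; exact R.refl _ _)
    have hwu : w ≠ u := fun h => h2 (by rw [h]; exact R.refl _ _)
    exact ⟨z, v, w, hz, Finset.mem_erase.2 ⟨hvu, hv⟩, Finset.mem_erase.2 ⟨hwu, hw⟩,
      fun h => h1 (hzy.symm.trans h), fun h => h2 (hzy.symm.trans h), h3,
      hzyS.trans h4, h5, h6⟩
  · by_cases hvy : v = y
    · subst hvy
      have hwu : w ≠ v := fun h => h3 (by rw [h]; exact R.refl _ _)
      exact ⟨u, z, w, Finset.mem_erase.2 ⟨huy, hu⟩, hz, Finset.mem_erase.2 ⟨hwu, hw⟩,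
        fun h => h1 (h.trans hzy), h2, fun h => h3 (hzy.symm.trans h),
        h4, hzyS.trans h5, h6⟩
    · by_cases hwy : w = y
      · subst hwy
        exact ⟨u, v, z, Finset.mem_erase.2 ⟨huy, hu⟩, Finset.mem_erase.2 ⟨hvy, hv⟩, hz,
          h1, fun h => h2 (h.trans hzy), fun h => h3 (h.trans hzy),
          h4, h5, hzyS.trans h6⟩
      · exact ⟨u, v, w, Finset.mem_erase.2 ⟨huy, hu⟩, Finset.mem_erase.2 ⟨hvy, hv⟩,
          Finset.mem_erase.2 ⟨hwy, hw⟩, h1, h2, h3, h4, h5, h6⟩

theorem abstract_count {κ : Type} [DecidableEq κ] (S : Set (Ed d)) (B : κ → Set (V d))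
    (b : κ → V d) (hb : ∀ k, b k ∈ B k)
    (hconn : ∀ k, ∀ y ∈ B k, ∀ z ∈ B k, R (inner (B k)) y z)
    (hdisj : ∀ k l, k ≠ l → ∀ w ∈ B k, w ∉ B l) :
    ∀ (n : ℕ) (T : Finset κ) (Y : Finset (V d)), T.card = n →
      (∀ k ∈ T, ∀ y ∈ Y, y ∉ B k) → (∀ k ∈ T, inner (B k) ⊆ S) →
      (∀ k ∈ T, Trip S (B k) (b k) Y) → T.card ≤ Y.card := by
  classical
  intro n
  induction n with
  | zero => intro T Y hT _ _ _; omega
  | succ n ih =>
    intro T Y hT hYB hin htrip
    -- pairs (k, y)
    let P : Finset (κ × V d) := (T ×ˢ Y).filter (fun q => R S q.2 (b q.1))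
    let N : κ × V d → ℕ := fun q => (T.filter (fun l => R (S \ touch (B q.1)) q.2 (b l))).card
    have hPne : P.Nonempty := by
      have : T.Nonempty := by rw [← Finset.card_pos]; omega
      obtain ⟨k, hk⟩ := this
      obtain ⟨u, v, w, hu, hv, hw, h1, h2, h3, h4, h5, h6⟩ := htrip k hk
      exact ⟨(k, u), Finset.mem_filter.2 ⟨Finset.mk_mem_product hk hu, h4⟩⟩
    obtain ⟨⟨k, y⟩, hq, hmin⟩ := Finset.exists_min_image P N hPne
    have hkT : k ∈ T := (Finset.mem_product.1 (Finset.mem_filter.1 hq).1).1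
    have hyY : y ∈ Y := (Finset.mem_product.1 (Finset.mem_filter.1 hq).1).2
    have hyb : R S y (b k) := (Finset.mem_filter.1 hq).2
    -- the branch contains no box
    have hno : ∀ l ∈ T, ¬ R (S \ touch (B k)) y (b l) := by
      intro l hl hR
      have hlk : l ≠ k := by
        rintro rfl
        have := isolated (hb l) hR.symm
        exact hYB l hl y hyY (by rw [this]; exact hb l)
      obtain ⟨y', hy'Y, hy'k, hy'l⟩ := (htrip l hl).avoid_one (b k)
      have hav : ∀ w ∈ clu (S \ touch (B l)) y', w ∉ B k :=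
        comp_avoid (hdisj l k hlk) (hconn k) (hin k hkT) (hb k) hy'k
      have hjoin : R (S \ touch (B k)) y' (b l) :=
        avoid_join (hdisj l k hlk) (hconn l) (hin l hl) hav hy'l (hb l)
      have hq' : (l, y') ∈ P :=
        Finset.mem_filter.2 ⟨Finset.mk_mem_product hl hy'Y, hy'l⟩
      have hlt : N (l, y') < N (k, y) := by
        apply Finset.card_lt_card
        rw [Finset.ssubset_iff_of_subset]
        · refine ⟨l, Finset.mem_filter.2 ⟨hl, hR⟩, ?_⟩
          intro hmem
          have h1 : R (S \ touch (B l)) y' (b l) := (Finset.mem_filter.1 hmem).2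
          have := isolated (hb l) h1.symm
          exact hYB l hl y' hy'Y (by rw [this]; exact hb l)
        · intro m hm
          have hm' := Finset.mem_filter.1 hm
          refine Finset.mem_filter.2 ⟨hm'.1, ?_⟩
          have h1 : R (S \ touch (B k)) y' (b m) := avoid_path sdiff_subset hav hm'.2
          exact (hR.trans hjoin.symm).trans h1
      exact absurd (hmin _ hq') (not_le.2 hlt)
    -- remove k and y
    have hcardT : (T.erase k).card = n := by rw [Finset.card_erase_of_mem hkT]; omega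
    have hcardY : (Y.erase y).card + 1 = Y.card := Finset.card_erase_add_one hyY
    have := ih (T.erase k) (Y.erase y) hcardT
      (fun l hl z hz => hYB l (Finset.mem_of_mem_erase hl) z (Finset.mem_of_mem_erase hz))
      (fun l hl => hin l (Finset.mem_of_mem_erase hl)) ?_
    · omega
    · intro l hl
      have hlk : l ≠ k := Finset.ne_of_mem_erase hl
      have hlT : l ∈ T := Finset.mem_of_mem_erase hl
      refine (htrip l hlT).replace ?_
      -- y joined to b k off B l
      have hav : ∀ w ∈ clu (S \ touch (B k)) y, w ∉ B l :=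
        comp_avoid (hdisj k l hlk.symm) (hconn l) (hin l hlT) (hb l) (hno l hlT)
      have h1 : R (S \ touch (B l)) y (b k) :=
        avoid_join (hdisj k l hlk.symm) (hconn k) (hin k hkT) hav hyb (hb k)
      obtain ⟨z, hzY, hzy, hzl, hzk⟩ := (htrip k hkT).avoid_two y (b l)
      have hav2 : ∀ w ∈ clu (S \ touch (B k)) z, w ∉ B l :=
        comp_avoid (hdisj k l hlk.symm) (hconn l) (hin l hlT) (hb l) hzl
      have h2 : R (S \ touch (B l)) z (b k) :=
        avoid_join (hdisj k l hlk.symm) (hconn k) (hin k hkT) hav2 hzk (hb k)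
      refine ⟨z, Finset.mem_erase.2 ⟨?_, hzY⟩, h2.trans h1.symm⟩
      rintro rfl
      exact hzy (R.refl _ _)

/-! ### From infinite components to points of the shell -/

lemma adj_coord {S : Set (Ed d)} {u v : V d} (h : Adj S u v) (i : Fin d) :
    u i - 1 ≤ v i ∧ v i ≤ u i + 1 := by
  obtain ⟨e, _, he⟩ := h
  have key : ∀ i, e.1 i ≤ tgt e i ∧ tgt e i ≤ e.1 i + 1 := by
    intro i
    unfold tgt
    by_cases hi : i = e.2
    · subst hi
      simp
    · simp [Pi.single_eq_of_ne hi]
  have hk := key i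
  rcases he with ⟨h1, h2⟩ | ⟨h1, h2⟩
  · subst h1; subst h2
    unfold src
    constructor <;> linarith [hk.1, hk.2]
  · subst h1; subst h2
    unfold src
    constructor <;> linarith [hk.1, hk.2]

lemma adj_box {S : Set (Ed d)} {u v x : V d} {n : ℕ} (h : Adj S u v) (hu : u ∈ box n x) :
    v ∈ box (n + 1) x := by
  rw [mem_box] at hu ⊢
  intro i
  have h1 := adj_coord h i
  have h2 := hu i
  push_cast
  constructor <;> linarith [h1.1, h1.2, h2.1, h2.2]

lemma exit_box {S : Set (Ed d)} {x z z' : V d} {n : ℕ} (h : R S z z') (hz : z ∈ box n x)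
    (hz' : z' ∉ box n x) : ∃ y ∈ box (n + 1) x \ box n x, R S z y := by
  induction h with
  | refl => exact absurd hz hz'
  | tail h1 h2 ih =>
    rename_i b c
    by_cases hb : b ∈ box n x
    · exact ⟨c, Finset.mem_sdiff.2 ⟨adj_box h2 hb, hz'⟩, R.trans h1 (R.single h2)⟩
    · exact ih hb

lemma shell_point {S : Set (Ed d)} {A : Set (V d)} {n : ℕ} {o u x : V d}
    (hA : ∀ w ∈ A, w ∈ box n o) (hx : x ∈ A) (hu : Inft (S \ touch A) u) (hux : R S u x) :
    ∃ y ∈ box (n + 1) o \ box n o, R (S \ touch A) u y ∧ R S y x := by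
  obtain ⟨z, a, ha, hR, hz⟩ := first_entry hux hx
  have hzinf : Inft (S \ touch A) z := hu.of_R hR
  have hzA : z ∉ A := by
    intro hzA
    apply hzinf
    refine (Set.finite_singleton z).subset ?_
    intro w hw
    exact isolated hzA hw
  have hza : Adj S z a := by
    rcases hz with rfl | ⟨_, hz⟩
    · exact absurd ha hzA
    · exact hz
  have hzbox : z ∈ box (n + 1) o := adj_box hza.symm (hA a ha)
  have hzx : R S z x := (R.mono sdiff_subset hR).symm.trans hux
  by_cases hzn : z ∈ box n o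
  · obtain ⟨z', hz'1, hz'2⟩ : ∃ z' ∈ clu (S \ touch A) z, z' ∉ (box n o : Set (V d)) := by
      by_contra hcon
      push Not at hcon
      exact hzinf ((box n o).finite_toSet.subset hcon)
    obtain ⟨y, hy, hzy⟩ := exit_box hz'1 hzn (by simpa using hz'2)
    exact ⟨y, hy, hR.trans hzy, (R.mono sdiff_subset hzy).symm.trans hzx⟩
  · exact ⟨z, Finset.mem_sdiff.2 ⟨hzbox, hzn⟩, hR, hzx⟩

lemma card_box (n : ℕ) (x : V d) : (box n x).card = (2 * n + 1) ^ d := by
  unfold box
  rw [Pi.card_Icc]
  have : ∀ i : Fin d, (Finset.Icc ((x - fun _ => (n : ℤ) : V d) i)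
      ((x + fun _ => (n : ℤ) : V d) i)).card = 2 * n + 1 := by
    intro i
    rw [Int.card_Icc]
    simp only [Pi.sub_apply, Pi.add_apply]
    have : x i + (n : ℤ) + 1 - (x i - n) = ((2 * n + 1 : ℕ) : ℤ) := by push_cast; ring
    rw [this, Int.toNat_natCast]
  rw [Finset.prod_congr rfl (fun i _ => this i), Finset.prod_const, Finset.card_univ,
    Fintype.card_fin]

lemma self_mem_box (r : ℕ) (x : V d) : x ∈ box r x := by
  rw [mem_box]
  intro i
  have : (0 : ℤ) ≤ r := Int.natCast_nonneg r
  constructor <;> linarith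

theorem tb_count (r M : ℕ) (S : Set (Ed d)) (T : Finset (V d)) (hT : T ⊆ box M 0)
    (h : ∀ k ∈ T, TB r ((2 * (r : ℤ) + 1) • k) S) :
    T.card + ((2 * r + 1) * (2 * M + 1)) ^ d ≤ ((2 * r + 1) * (2 * M + 1) + 2) ^ d := by
  classical
  set n : ℕ := (2 * r + 1) * M + r with hn
  set B : V d → Set (V d) := fun k => (box r ((2 * (r : ℤ) + 1) • k) : Set (V d)) with hB
  set b : V d → V d := fun k => (2 * (r : ℤ) + 1) • k with hb
  set Y : Finset (V d) := box (n + 1) 0 \ box n 0 with hY
  have hr : (0 : ℤ) ≤ r := Int.natCast_nonneg r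
  have hsub : ∀ k ∈ T, ∀ w ∈ B k, w ∈ box n (0 : V d) := by
    intro k hk w hw
    have hk' := mem_box.1 (hT hk)
    have hw' : ∀ i, ((2 * (r : ℤ) + 1) • k) i - r ≤ w i ∧ w i ≤ ((2 * (r : ℤ) + 1) • k) i + r :=
      mem_box.1 (Finset.mem_coe.1 hw)
    rw [mem_box]
    intro i
    have h1 := hk' i
    have h2 := hw' i
    simp only [Pi.zero_apply, Pi.smul_apply, smul_eq_mul, zero_sub, zero_add] at h1 h2 ⊢
    rw [hn]
    push_cast
    constructor
    · nlinarith [h1.1, h2.1, mul_le_mul_of_nonneg_left h1.1 (by linarith : (0 : ℤ) ≤ 2 * r + 1)]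
    · nlinarith [h1.2, h2.2, mul_le_mul_of_nonneg_left h1.2 (by linarith : (0 : ℤ) ≤ 2 * r + 1)]
  have hdisj : ∀ k l, k ≠ l → ∀ w ∈ B k, w ∉ B l := by
    intro k l hkl w hw hw2
    apply hkl
    have hw' : ∀ i, ((2 * (r : ℤ) + 1) • k) i - r ≤ w i ∧ w i ≤ ((2 * (r : ℤ) + 1) • k) i + r :=
      mem_box.1 (Finset.mem_coe.1 hw)
    have hw2' : ∀ i, ((2 * (r : ℤ) + 1) • l) i - r ≤ w i ∧ w i ≤ ((2 * (r : ℤ) + 1) • l) i + r :=
      mem_box.1 (Finset.mem_coe.1 hw2)
    ext i
    have h1 := hw' i
    have h2 := hw2' i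
    simp only [Pi.smul_apply, smul_eq_mul] at h1 h2
    rcases lt_trichotomy (k i) (l i) with hlt | heq | hlt
    · exfalso
      have : k i + 1 ≤ l i := hlt
      nlinarith [mul_le_mul_of_nonneg_left this (by linarith : (0 : ℤ) ≤ 2 * r + 1), h1.1, h1.2,
        h2.1, h2.2]
    · exact heq
    · exfalso
      have : l i + 1 ≤ k i := hlt
      nlinarith [mul_le_mul_of_nonneg_left this (by linarith : (0 : ℤ) ≤ 2 * r + 1), h1.1, h1.2,
        h2.1, h2.2]
  have hmain : T.card ≤ Y.card := by
    refine abstract_count S B b (fun k => Finset.mem_coe.2 (self_mem_box r _))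
      (fun k y hy z hz => box_conn r _ (Finset.mem_coe.1 hy) (Finset.mem_coe.1 hz)) hdisj
      T.card T Y rfl ?_ ?_ ?_
    · intro k hk y hy hyB
      exact (Finset.mem_sdiff.1 hy).2 (hsub k hk y hyB)
    · intro k hk
      exact (h k hk).1
    · intro k hk
      obtain ⟨_, u, v, w, hu, hv, hw, h1, h2, h3, h4, h5, h6⟩ := h k hk
      have hx : b k ∈ B k := Finset.mem_coe.2 (self_mem_box r _)
      obtain ⟨y1, hy1, hr1, hs1⟩ := shell_point (hsub k hk) hx hu h4
      obtain ⟨y2, hy2, hr2, hs2⟩ := shell_point (hsub k hk) hx hv h5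
      obtain ⟨y3, hy3, hr3, hs3⟩ := shell_point (hsub k hk) hx hw h6
      exact ⟨y1, y2, y3, hy1, hy2, hy3,
        fun hc => h1 ((hr1.trans hc).trans hr2.symm),
        fun hc => h2 ((hr1.trans hc).trans hr3.symm),
        fun hc => h3 ((hr2.trans hc).trans hr3.symm), hs1, hs2, hs3⟩
  have hsubbox : box n (0 : V d) ⊆ box (n + 1) 0 := by
    intro w hw
    rw [mem_box] at hw ⊢
    intro i
    have := hw i
    push_cast
    constructor <;> linarith [this.1, this.2]
  have hYcard : Y.card + (2 * n + 1) ^ d = (2 * (n + 1) + 1) ^ d := by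
    have := Finset.card_sdiff_add_card_eq_card hsubbox
    rwa [card_box, card_box] at this
  have e1 : (2 * r + 1) * (2 * M + 1) = 2 * n + 1 := by rw [hn]; ring
  have e2 : (2 * r + 1) * (2 * M + 1) + 2 = 2 * (n + 1) + 1 := by rw [hn]; ring
  rw [e2, e1]
  omega

theorem density_zero {Ω : Type} [MeasurableSpace Ω] (P : Measure Ω) [IsProbabilityMeasure P]
    (r : ℕ) (E : V d → Set Ω) (hE : ∀ k, MeasurableSet (E k)) (p : ENNReal)
    (hp : ∀ k, P (E k) = p)
    (h : ∀ ω (M : ℕ) (T : Finset (V d)), T ⊆ box M 0 → (∀ k ∈ T, ω ∈ E k) →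
      T.card + ((2 * r + 1) * (2 * M + 1)) ^ d ≤ ((2 * r + 1) * (2 * M + 1) + 2) ^ d) :
    p = 0 := by
  classical
  have hpfin : p ≠ ⊤ := by
    rw [← hp 0]
    exact measure_ne_top P _
  -- bound for each M
  have hbound : ∀ M : ℕ, ((2 * M + 1) ^ d : ℕ) * p.toReal ≤
      ((2 * r + 1) * (2 * M + 1) + 2 : ℝ) ^ d - ((2 * r + 1) * (2 * M + 1) : ℝ) ^ d := by
    intro M
    have hint : ∑ k ∈ box M (0 : V d), (P.real (E k)) =
        ∫ ω, (∑ k ∈ box M (0 : V d), (E k).indicator (fun _ => (1 : ℝ)) ω) ∂P := by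
      rw [integral_finsetSum]
      · refine Finset.sum_congr rfl ?_
        intro k _
        rw [integral_indicator (hE k)]
        simp
      · intro k _
        exact (integrable_const (1 : ℝ)).indicator (hE k)
    have hle : ∫ ω, (∑ k ∈ box M (0 : V d), (E k).indicator (fun _ => (1 : ℝ)) ω) ∂P ≤
        ∫ _ω, (((2 * r + 1) * (2 * M + 1) + 2 : ℝ) ^ d - ((2 * r + 1) * (2 * M + 1) : ℝ) ^ d) ∂P := by
      apply integral_mono
      · exact integrable_finsetSum _ (fun k _ => (integrable_const (1 : ℝ)).indicator (hE k))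
      · exact integrable_const _
      · intro ω
        have h1 := h ω M ((box M (0 : V d)).filter (fun k => ω ∈ E k))
          (Finset.filter_subset _ _) (fun k hk => (Finset.mem_filter.1 hk).2)
        have h2 : (∑ k ∈ box M (0 : V d), (E k).indicator (fun _ => (1 : ℝ)) ω) =
            (((box M (0 : V d)).filter (fun k => ω ∈ E k)).card : ℝ) := by
          rw [Finset.card_filter]
          push_cast
          refine Finset.sum_congr rfl ?_
          intro k _
          by_cases hk : ω ∈ E k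
          · simp [hk]
          · simp [hk]
        simp only
        rw [h2]
        have h3 : ((((box M (0 : V d)).filter (fun k => ω ∈ E k)).card +
          ((2 * r + 1) * (2 * M + 1)) ^ d : ℕ) : ℝ) ≤
          ((((2 * r + 1) * (2 * M + 1) + 2) ^ d : ℕ) : ℝ) := by exact_mod_cast h1
        push_cast at h3
        linarith
    rw [integral_const] at hle
    simp only [probReal_univ, one_smul] at hle
    rw [← hint] at hle
    have hsum : ∑ k ∈ box M (0 : V d), (P.real (E k)) = ((2 * M + 1) ^ d : ℕ) * p.toReal := by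
      have : ∀ k ∈ box M (0 : V d), P.real (E k) = p.toReal := by
        intro k _
        simp [Measure.real, hp k]
      rw [Finset.sum_congr rfl this, Finset.sum_const, card_box, nsmul_eq_mul]
    rw [hsum] at hle
    exact hle
  have hbound2 : ∀ M : ℕ, p.toReal ≤
      ((2 * r + 1 : ℝ) + 2 / (2 * M + 1)) ^ d - (2 * r + 1 : ℝ) ^ d := by
    intro M
    have hM : (0 : ℝ) < 2 * M + 1 := by positivity
    have h1 := hbound M
    push_cast at h1
    have hpow : (0 : ℝ) < (2 * M + 1 : ℝ) ^ d := by positivity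
    have e1 : ((2 * r + 1) * (2 * M + 1) + 2 : ℝ) ^ d =
        (2 * M + 1 : ℝ) ^ d * ((2 * r + 1 : ℝ) + 2 / (2 * M + 1)) ^ d := by
      rw [← mul_pow]
      congr 1
      field_simp
    have e2 : ((2 * r + 1) * (2 * M + 1) : ℝ) ^ d =
        (2 * M + 1 : ℝ) ^ d * (2 * r + 1 : ℝ) ^ d := by
      rw [← mul_pow]
      congr 1
      ring
    rw [e1, e2, ← mul_sub] at h1
    exact le_of_mul_le_mul_left h1 hpow
  have hlim : Filter.Tendsto (fun M : ℕ => ((2 * r + 1 : ℝ) + 2 / (2 * (M : ℝ) + 1)) ^ d -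
      (2 * r + 1 : ℝ) ^ d) Filter.atTop (nhds 0) := by
    have h1 : Filter.Tendsto (fun M : ℕ => (2 : ℝ) / (2 * (M : ℝ) + 1)) Filter.atTop (nhds 0) := by
      apply Filter.Tendsto.div_atTop tendsto_const_nhds
      apply Filter.tendsto_atTop_add_const_right
      exact (tendsto_natCast_atTop_atTop).const_mul_atTop (by norm_num)
    have h2 : Filter.Tendsto (fun M : ℕ => ((2 * r + 1 : ℝ) + 2 / (2 * (M : ℝ) + 1)) ^ d -
      (2 * r + 1 : ℝ) ^ d) Filter.atTop (nhds (((2 * r + 1 : ℝ) + 0) ^ d - (2 * r + 1 : ℝ) ^ d)) :=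
      ((tendsto_const_nhds.add h1).pow d).sub tendsto_const_nhds
    simpa using h2
  have hp0 : p.toReal ≤ 0 := ge_of_tendsto' hlim hbound2
  have hp1 : p.toReal = 0 := le_antisymm hp0 ENNReal.toReal_nonneg
  rcases (ENNReal.toReal_eq_zero_iff p).1 hp1 with h | h
  · exact h
  · exact absurd h hpfin

end Pool.Agent.Hhelper98.RC
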