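import Pool.Agent.Hhelper98.RC.Basic

/-!
Measures on countable products of finite sets: extension from cylinders (Kolmogorov), comparison
and uniqueness on cylinders (helper library for MP_164cef_pr).
-/

namespace Pool.Agent.Hhelper98.RC

open MeasureTheory Set
open scoped ENNReal symmDiff

set_option linter.unusedSectionVars false

variable {ι α : Type} [Countable ι] [DecidableEq ι] [Fintype α] [DecidableEq α] [Nonempty α]
  [MeasurableSpace α] [MeasurableSingletonClass α]

theorem cyl_meas (D : Finset ι) (c : ι → α) : MeasurableSet (cyl D c) := by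
  have : cyl D c = ⋂ e ∈ D, (fun n : ι → α => n e) ⁻¹' {c e} := by
    ext n; simp [cyl]
  rw [this]
  exact D.measurableSet_biInter fun e _ => measurable_pi_apply e (measurableSet_singleton _)

theorem cyl_gen : (inferInstance : MeasurableSpace (ι → α)) =
    MeasurableSpace.generateFrom {s | s = ∅ ∨ ∃ D c, s = cyl D c} := by
  apply le_antisymm
  · change MeasurableSpace.pi ≤ _
    refine iSup_le fun i => ?_
    rintro s ⟨T, -, rfl⟩
    have : (fun n : ι → α => n i) ⁻¹' T = ⋃ a ∈ T, cyl {i} (fun _ => a) := by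
      ext n
      simp [cyl]
    rw [this]
    refine MeasurableSet.biUnion (Set.to_countable T) fun a _ => ?_
    exact MeasurableSpace.measurableSet_generateFrom (Or.inr ⟨_, _, rfl⟩)
  · refine MeasurableSpace.generateFrom_le ?_
    rintro s (rfl | ⟨D, c, rfl⟩)
    · exact MeasurableSet.empty
    · exact cyl_meas D c

theorem cyl_pi : IsPiSystem {s : Set (ι → α) | s = ∅ ∨ ∃ (D : Finset ι) (c : ι → α),
    s = cyl D c} := by
  rintro s (rfl | ⟨D, c, rfl⟩) t (rfl | ⟨E, c', rfl⟩) hne
  · left; simp
  · left; simp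
  · left; simp
  · right
    obtain ⟨x, hx, hx'⟩ := hne
    refine ⟨D ∪ E, x, ?_⟩
    ext n
    simp only [cyl, mem_inter_iff, mem_ofPred_eq, Finset.mem_union] at *
    constructor
    · rintro ⟨h1, h2⟩ e (he | he)
      · rw [h1 e he, hx e he]
      · rw [h2 e he, hx' e he]
    · intro h
      exact ⟨fun e he => by rw [h e (Or.inl he), hx e he],
        fun e he => by rw [h e (Or.inr he), hx' e he]⟩

/-- A measurable cylinder is a finite disjoint union of cylinders over a larger set. -/
lemma mcyl_eq (D₀ : Finset ι) {t : Set (ι → α)} (ht : t ∈ measurableCylinders fun _ : ι => α) :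
    ∃ D, D₀ ⊆ D ∧ ∃ S : Finset (D → α), t = ⋃ x ∈ S, (fun n : ι → α => fun i : D => n i) ⁻¹' {x} := by
  classical
  obtain ⟨J, T, -, rfl⟩ := (mem_measurableCylinders t).1 ht
  refine ⟨D₀ ∪ J, Finset.subset_union_left, ?_⟩
  refine ⟨Finset.univ.filter (fun x : (D₀ ∪ J : Finset ι) → α =>
    (fun j : J => x ⟨j, Finset.mem_union_right _ j.2⟩) ∈ T), ?_⟩
  ext n
  simp [cylinder]
  rfl

lemma preim_eq_cyl (D : Finset ι) (x : D → α) :
    (fun n : ι → α => fun i : D => n i) ⁻¹' {x} =
      cyl D (fun i => if h : i ∈ D then x ⟨i, h⟩ else Classical.arbitrary α) := by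
  ext n
  simp only [mem_preimage, mem_singleton_iff, cyl, mem_ofPred_eq]
  constructor
  · rintro rfl e he
    simp [he]
  · intro h
    funext i
    simpa using h i i.2

theorem le_of_cyl {μ ν : Measure (ι → α)} [IsFiniteMeasure μ] [IsFiniteMeasure ν] (D₀ : Finset ι)
    (h : ∀ D, D₀ ⊆ D → ∀ c, μ (cyl D c) ≤ ν (cyl D c)) : μ ≤ ν := by
  classical
  -- on the algebra of cylinders
  have hcyl : ∀ t ∈ measurableCylinders fun _ : ι => α, μ t ≤ ν t := by
    intro t ht
    obtain ⟨D, hD, S, rfl⟩ := mcyl_eq D₀ ht
    have hdisj : Set.PairwiseDisjoint (S : Set (D → α))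
        (fun x => (fun n : ι → α => fun i : D => n i) ⁻¹' {x}) := by
      intro x _ y _ hxy
      refine Set.disjoint_left.2 fun n hn hn' => hxy ?_
      simp only [mem_preimage, mem_singleton_iff] at hn hn'
      rw [← hn, ← hn']
    have hm : ∀ x ∈ S, MeasurableSet ((fun n : ι → α => fun i : D => n i) ⁻¹' {x}) := by
      intro x _
      rw [preim_eq_cyl]
      exact cyl_meas _ _
    rw [measure_biUnion_finset hdisj hm, measure_biUnion_finset hdisj hm]
    refine Finset.sum_le_sum fun x _ => ?_
    rw [preim_eq_cyl]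
    exact h D hD _
  refine Measure.le_iff.2 fun s hs => ?_
  have hdense := Measure.MeasureDense.of_generateFrom_isSetAlgebra_finite (μ := μ + ν)
    (isSetAlgebra_measurableCylinders (α := fun _ : ι => α))
    (generateFrom_measurableCylinders (α := fun _ : ι => α)).symm
  refine ENNReal.le_of_forall_pos_le_add fun ε hε _ => ?_
  obtain ⟨t, ht, hlt⟩ := hdense.approx s hs (measure_ne_top _ _) (ε / 2) (by positivity)
  have h1 : μ (s ∆ t) + ν (s ∆ t) < ENNReal.ofReal (ε / 2) := by
    simpa using hlt
  have h2 : μ s ≤ μ t + μ (s ∆ t) := by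
    refine (measure_mono ?_).trans (measure_union_le _ _)
    intro x hx
    by_cases hxt : x ∈ t
    · exact Or.inl hxt
    · exact Or.inr (Or.inl ⟨hx, hxt⟩)
  have h3 : ν t ≤ ν s + ν (s ∆ t) := by
    refine (measure_mono ?_).trans (measure_union_le _ _)
    intro x hx
    by_cases hxt : x ∈ s
    · exact Or.inl hxt
    · exact Or.inr (Or.inr ⟨hx, hxt⟩)
  calc μ s ≤ μ t + μ (s ∆ t) := h2
    _ ≤ ν t + μ (s ∆ t) := add_le_add_left (hcyl t ht) _
    _ ≤ (ν s + ν (s ∆ t)) + μ (s ∆ t) := by gcongr
    _ = ν s + (μ (s ∆ t) + ν (s ∆ t)) := by ring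
    _ ≤ ν s + ENNReal.ofReal (ε / 2) := by gcongr
    _ ≤ ν s + ε := by
        gcongr
        refine ENNReal.ofReal_le_of_le_toReal ?_
        simp only [ENNReal.coe_toReal]
        have : (0 : ℝ) ≤ ε := ε.2
        linarith

theorem eq_of_cyl {μ ν : Measure (ι → α)} [IsFiniteMeasure μ] [IsFiniteMeasure ν] (D₀ : Finset ι)
    (h : ∀ D, D₀ ⊆ D → ∀ c, μ (cyl D c) = ν (cyl D c)) : μ = ν :=
  le_antisymm (le_of_cyl D₀ fun D hD c => (h D hD c).le)
    (le_of_cyl D₀ fun D hD c => (h D hD c).ge)

/-! ### Extension -/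

/-- Extension of a configuration on a finite set by a constant. -/
noncomputable def ext0 (J : Finset ι) (x : J → α) : ι → α :=
  fun i => if h : i ∈ J then x ⟨i, h⟩ else Classical.arbitrary α

/-- Finite-dimensional marginals. -/
noncomputable def PJ (F : Finset ι → (ι → α) → ℝ) (J : Finset ι) : Measure (J → α) :=
  ∑ x : J → α, ENNReal.ofReal (F J (ext0 J x)) • Measure.dirac x

lemma PJ_apply (F : Finset ι → (ι → α) → ℝ) (J : Finset ι) (s : Set (J → α)) [DecidablePred (· ∈ s)] :
    PJ F J s = ∑ x : J → α, if x ∈ s then ENNReal.ofReal (F J (ext0 J x)) else 0 := by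
  unfold PJ
  rw [Measure.finsetSum_apply]
  refine Finset.sum_congr rfl fun x _ => ?_
  rw [Measure.smul_apply, Measure.dirac_apply' _ (Set.toFinite s).measurableSet, Set.indicator_apply]
  split_ifs <;> simp

lemma PJ_singleton (F : Finset ι → (ι → α) → ℝ) (J : Finset ι) (y : J → α) :
    PJ F J {y} = ENNReal.ofReal (F J (ext0 J y)) := by
  classical
  rw [PJ_apply]
  simp

instance PJ_fin (F : Finset ι → (ι → α) → ℝ) (J : Finset ι) : IsFiniteMeasure (PJ F J) := by
  classical
  constructor
  rw [PJ_apply]
  simp only [mem_univ, if_true]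
  exact ENNReal.sum_lt_top.2 fun x _ => ENNReal.ofReal_lt_top

lemma PJ_insert (F : Finset ι → (ι → α) → ℝ) (h0 : ∀ D c, 0 ≤ F D c)
    (hloc : ∀ D c c', (∀ e ∈ D, c e = c' e) → F D c = F D c')
    (hcons : ∀ D e c, e ∉ D → ∑ a : α, F (insert e D) (Function.update c e a) = F D c)
    (J : Finset ι) (e : ι) (he : e ∉ J) :
    PJ F J = (PJ F (insert e J)).map (Finset.restrict₂ (π := fun _ : ι => α) (Finset.subset_insert e J)) := by
  classical
  refine Measure.ext_of_singleton fun y => ?_
  rw [Measure.map_apply (Finset.measurable_restrict₂ _) (measurableSet_singleton y), PJ_singleton,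
    PJ_apply, ← Finset.sum_filter, ← hcons J e _ he, ENNReal.ofReal_sum_of_nonneg (fun _ _ => h0 _ _)]
  refine Finset.sum_bij' (fun a _ => fun i : (insert e J : Finset ι) =>
      Function.update (ext0 J y) e a i) (fun x _ => x ⟨e, Finset.mem_insert_self e J⟩) ?_ ?_ ?_ ?_ ?_
  · intro a _
    simp only [Finset.mem_filter, Finset.mem_univ, true_and, mem_preimage, mem_singleton_iff]
    funext i
    have hi : (i : ι) ≠ e := fun h => he (h ▸ i.2)
    simp [Finset.restrict₂, Function.update_of_ne hi, ext0]
  · intro x _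
    exact Finset.mem_univ _
  · intro a _
    simp
  · intro x hx
    simp only [Finset.mem_filter, Finset.mem_univ, true_and, mem_preimage, mem_singleton_iff] at hx
    funext i
    by_cases hi : (i : ι) = e
    · obtain ⟨i, hi'⟩ := i
      simp only at hi
      subst hi
      simp
    · have hiJ : (i : ι) ∈ J := by
        have := i.2
        rw [Finset.mem_insert] at this
        tauto
      rw [Function.update_of_ne hi, ← hx]
      simp [ext0, hiJ, Finset.restrict₂]
  · intro a _
    congr 1
    apply hloc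
    intro i hi
    simp only [ext0, hi, dif_pos]

lemma PJ_proj (F : Finset ι → (ι → α) → ℝ) (h0 : ∀ D c, 0 ≤ F D c)
    (hloc : ∀ D c c', (∀ e ∈ D, c e = c' e) → F D c = F D c')
    (hcons : ∀ D e c, e ∉ D → ∑ a : α, F (insert e D) (Function.update c e a) = F D c) :
    IsProjectiveMeasureFamily (α := fun _ : ι => α) (PJ F) := by
  classical
  suffices H : ∀ (n : ℕ) (I J : Finset ι) (hJI : J ⊆ I), (I \ J).card = n →
      PJ F J = (PJ F I).map (Finset.restrict₂ (π := fun _ : ι => α) hJI) from fun I J hJI => H _ I J hJI rfl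
  intro n
  induction n with
  | zero =>
    intro I J hJI hc
    have : I = J := by
      rw [Finset.card_eq_zero, Finset.sdiff_eq_empty_iff_subset] at hc
      exact Finset.Subset.antisymm hc hJI
    subst this
    have : (Finset.restrict₂ (π := fun _ : ι => α) hJI) = id := by
      funext x i; rfl
    rw [this, Measure.map_id]
  | succ n ih =>
    intro I J hJI hc
    obtain ⟨e, he⟩ : (I \ J).Nonempty := by
      rw [← Finset.card_pos]; omega
    rw [Finset.mem_sdiff] at he
    have hins : insert e J ⊆ I := Finset.insert_subset he.1 hJI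
    have hc' : (I \ insert e J).card = n := by
      have : I \ insert e J = (I \ J).erase e := by
        ext i; simp only [Finset.mem_sdiff, Finset.mem_insert, Finset.mem_erase]; tauto
      rw [this, Finset.card_erase_of_mem (Finset.mem_sdiff.2 he), hc]; rfl
    rw [PJ_insert F h0 hloc hcons J e he.2, ih I (insert e J) hins hc',
      Measure.map_map (Finset.measurable_restrict₂ _) (Finset.measurable_restrict₂ _)]
    rfl

theorem exists_measure (F : Finset ι → (ι → α) → ℝ) (h0 : ∀ D c, 0 ≤ F D c)
    (hloc : ∀ D c c', (∀ e ∈ D, c e = c' e) → F D c = F D c')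
    (hcons : ∀ D e c, e ∉ D → ∑ a : α, F (insert e D) (Function.update c e a) = F D c) :
    ∃ μ : Measure (ι → α), IsFiniteMeasure μ ∧ ∀ D c, μ (cyl D c) = ENNReal.ofReal (F D c) := by
  classical
  have hP := PJ_proj F h0 hloc hcons
  let _ : TopologicalSpace α := ⊥
  have : DiscreteTopology α := ⟨rfl⟩
  have hopen : ∀ s ∈ measurableCylinders fun _ : ι => α, IsOpen s ∧ IsClosed s := by
    intro s hs
    obtain ⟨J, T, -, rfl⟩ := (mem_measurableCylinders s).1 hs
    have hc : Continuous (fun n : ι → α => fun j : J => n j) := by fun_prop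
    have : IsClopen T := isClopen_discrete T
    exact ⟨this.isOpen.preimage hc, this.isClosed.preimage hc⟩
  have hsub : (projectiveFamilyContent hP).IsSigmaSubadditive := by
    intro f hf hfU
    have hcomp : IsCompact (⋃ i, f i) := (hopen _ hfU).2.isCompact
    obtain ⟨t, ht⟩ := hcomp.elim_finite_subcover f (fun i => (hopen _ (hf i)).1) subset_rfl
    have hmem : (⋃ i ∈ t, f i) ∈ measurableCylinders fun _ : ι => α :=
      isSetRing_measurableCylinders.biUnion_mem t fun i _ => hf i
    calc projectiveFamilyContent hP (⋃ i, f i) ≤ projectiveFamilyContent hP (⋃ i ∈ t, f i) :=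
          projectiveFamilyContent_mono hP hfU hmem ht
      _ ≤ ∑ i ∈ t, projectiveFamilyContent hP (f i) :=
          addContent_biUnion_le isSetRing_measurableCylinders fun i _ => hf i
      _ ≤ ∑' i, projectiveFamilyContent hP (f i) := ENNReal.sum_le_tsum t
  let μ : Measure (ι → α) := (projectiveFamilyContent hP).measure
    isSetSemiring_measurableCylinders generateFrom_measurableCylinders.symm.le hsub
  have hμ : ∀ s ∈ measurableCylinders fun _ : ι => α, μ s = projectiveFamilyContent hP s :=
    fun s hs => AddContent.measure_eq _ isSetSemiring_measurableCylinders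
      generateFrom_measurableCylinders.symm hsub hs
  have hcylμ : ∀ D c, μ (cyl D c) = ENNReal.ofReal (F D c) := by
    intro D c
    have h1 : cyl D c = cylinder (α := fun _ : ι => α) D {(fun i : D => c i)} := by
      ext n
      simp only [cyl, mem_ofPred_eq, mem_cylinder, mem_singleton_iff]
      constructor
      · intro h; funext i; exact h i i.2
      · intro h e he; exact congrFun h ⟨e, he⟩
    rw [hμ _ (h1 ▸ cylinder_mem_measurableCylinders D _ (measurableSet_singleton _)), h1,
      projectiveFamilyContent_cylinder hP (measurableSet_singleton _), PJ_singleton]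
    congr 1
    apply hloc
    intro e he
    simp [ext0, he]
  refine ⟨μ, ⟨?_⟩, hcylμ⟩
  have : (univ : Set (ι → α)) = cyl ∅ (fun _ => Classical.arbitrary α) := by
    ext n; simp [cyl]
  rw [this, hcylμ]
  exact ENNReal.ofReal_lt_top

end Pool.Agent.Hhelper98.RC
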