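import Pool.Agent.Hhelper98.RC.Basic

/-!
Finite-volume definitions for the duplicated random current model (MP_164cef_pr):
currents on the box `Λ_n` with a ghost vertex, their weights and laws, the duplicated-current
percolation law, and the class-level partition functions.
-/

namespace Pool.Agent.Hhelper98.RC

open MeasureTheory Set Filter
open scoped Topology

/-- The box `Λ_n = {-n, …, n}^d`. -/
noncomputable def Lam (d n : ℕ) : Finset (V d) := box n 0

open Classical in
/-- The nearest-neighbour edges of `Λ_n`. -/
noncomputable def En (d n : ℕ) : Finset (Ed d) :=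
  ((Lam d n) ×ˢ (Finset.univ : Finset (Fin d))).filter (fun e => tgt e ∈ Lam d n)

/-- Currents on `Λ_n` with ghost vertex: a value for every edge of `Λ_n`, and a value for every
ghost edge `xg`, `x ∈ Λ_n`. -/
abbrev Cur (d n : ℕ) := (En d n → ℕ) × (Lam d n → ℕ)

open Classical in
/-- A current is sourceless if the sum of the values of the edges (ghost edge included) at every
vertex of `Λ_n` is even. -/
def Sourceless {d n : ℕ} (c : Cur d n) : Prop :=
  ∀ x : Lam d n,
    Even ((∑ e : En d n, if src e.1 = x.1 ∨ tgt e.1 = x.1 then c.1 e else 0) + c.2 x)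

/-- The weight of a current. -/
noncomputable def curWeight {d n : ℕ} (β h : ℝ) (c : Cur d n) : ℝ :=
  (∏ e, β ^ c.1 e / (c.1 e).factorial) * ∏ x, (β * h) ^ c.2 x / (c.2 x).factorial

open Classical in
/-- The measure on sourceless currents giving every current its weight. -/
noncomputable def curMeas (d n : ℕ) (β h : ℝ) : Measure (Cur d n) :=
  Measure.sum fun c : Cur d n =>
    (if Sourceless c then ENNReal.ofReal (curWeight β h c) else 0) • Measure.dirac c

/-- The probability measure on sourceless currents proportional to the weight. -/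
noncomputable def curLaw (d n : ℕ) (β h : ℝ) : Measure (Cur d n) :=
  (curMeas d n β h Set.univ)⁻¹ • curMeas d n β h

open Classical in
/-- The percolation configuration `\widehat{n_1 + n_2}` of a pair of currents (edges outside
`Λ_n` are closed). -/
noncomputable def hat {d n : ℕ} (c : Cur d n × Cur d n) : Ed d → Bool := fun e =>
  if h : e ∈ En d n then decide (0 < c.1.1 ⟨e, h⟩ + c.2.1 ⟨e, h⟩) else false

/-- `μ` is the law of the duplicated-current percolation model `ω_β`: its finite-dimensional
distributions are the limits, first as `n → ∞` and then as `h ↘ 0`, of those of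
`\widehat{n_1 + n_2}`, with `n_1`, `n_2` independent sourceless currents on `Λ_n` of parameters
`(β, h)` and `(β, 0)`. -/
def IsDuplicatedCurrentLaw (d : ℕ) (β : ℝ) (μ : Measure (Ed d → Bool)) : Prop :=
  ∀ (D : Finset (Ed d)) (η : Ed d → Bool), ∃ g : ℝ → ENNReal,
    (∀ h : ℝ, 0 < h → Tendsto (fun n : ℕ =>
      ((curLaw d n β h).prod (curLaw d n β 0)) {c | ∀ e ∈ D, hat c e = η e})
        atTop (𝓝 (g h))) ∧
    Tendsto g (𝓝[>] 0) (𝓝 (μ {ω | ∀ e ∈ D, ω e = η e}))

/-! ### Class level -/

/-- The class of a current value: `0`, `1`, `2` (even and at least two), `3` (odd and at least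
three). -/
def cls (k : ℕ) : Fin 4 := if k = 0 then 0 else if k = 1 then 1 else if k % 2 = 0 then 2 else 3

/-- Total weight of the current values of a given class. -/
noncomputable def W (J : ℝ) (c : Fin 4) : ℝ :=
  if c = 0 then 1 else if c = 1 then J else if c = 2 then Real.cosh J - 1 else Real.sinh J - J

open Classical in
/-- The ghost weight of a source configuration. -/
noncomputable def Gam {d : ℕ} (t : ℝ) (Λ : Finset (V d)) (u : U d) : ℝ :=
  if u.support ⊆ Λ then ∏ x ∈ Λ, (if u x = 0 then Real.cosh t else Real.sinh t) else 0

/-- The parity-level partition function with sources `u`, on the edges `F`, with ghost edges of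
coupling `t` on `Λ`. -/
noncomputable def ZZ {d : ℕ} (β t : ℝ) (F : Finset (Ed d)) (Λ : Finset (V d)) (u : U d) : ℝ :=
  ∑ S ∈ F.powerset, (Real.sinh β) ^ S.card * (Real.cosh β) ^ (F.card - S.card) *
    Gam t Λ (u + ∑ e ∈ S, bb e)

end Pool.Agent.Hhelper98.RC
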