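import Pool.Agent.Hhelper98.RC.FinDefs

/-!
From `ℕ`-valued currents to classes: the finite-volume law at the level of classes
(module H3 for MP_164cef_pr).
-/

namespace Pool.Agent.Hhelper98.RC

open MeasureTheory Set Filter
open scoped Topology ENNReal

/-! ### Sums of products -/

lemma tsum_fin_prod : ∀ (m : ℕ) (g : Fin m → ℕ → ℝ≥0∞),
    ∑' f : Fin m → ℕ, ∏ i, g i (f i) = ∏ i, ∑' k, g i k
  | 0, g => by
    simp
  | m + 1, g => by
    rw [← (Fin.consEquiv (fun _ : Fin (m + 1) => ℕ)).tsum_eq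
      (fun f : Fin (m + 1) → ℕ => ∏ i, g i (f i)), ENNReal.tsum_prod']
    simp only [Fin.consEquiv_apply, Fin.prod_univ_succ, Fin.cons_zero, Fin.cons_succ,
      ENNReal.tsum_mul_left, ENNReal.tsum_mul_right]
    rw [tsum_fin_prod m (fun i => g i.succ)]

lemma tsum_pi_prod {ι : Type*} [Fintype ι] (g : ι → ℕ → ℝ≥0∞) :
    ∑' f : ι → ℕ, ∏ i, g i (f i) = ∏ i, ∑' k, g i k := by
  classical
  let e := Fintype.equivFin ι
  rw [← (Equiv.arrowCongr e.symm (Equiv.refl ℕ)).tsum_eq
      (fun f : ι → ℕ => ∏ i, g i (f i)), ← e.symm.prod_comp, ← tsum_fin_prod]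
  congr 1
  ext f
  rw [← e.symm.prod_comp]
  simp

/-- The weight of the value `k` at coupling `J`. -/
noncomputable def wt (J : ℝ) (k : ℕ) : ℝ≥0∞ := ENNReal.ofReal (J ^ k / k.factorial)

/-- Total weight of the values of parity `q`. -/
noncomputable def CS (J : ℝ) (q : ZMod 2) : ℝ := if q = 0 then Real.cosh J else Real.sinh J

lemma CS_nonneg {J : ℝ} (hJ : 0 ≤ J) (q : ZMod 2) : 0 ≤ CS J q := by
  unfold CS
  split_ifs
  · exact (Real.cosh_pos J).le
  · exact Real.sinh_nonneg_iff.2 hJ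

lemma tsum_even {J : ℝ} (hJ : 0 ≤ J) : ∑' n : ℕ, wt J (2 * n) = ENNReal.ofReal (Real.cosh J) := by
  unfold wt
  rw [← (Real.hasSum_cosh J).tsum_eq, ENNReal.ofReal_tsum_of_nonneg]
  · intro n; positivity
  · exact (Real.hasSum_cosh J).summable

lemma tsum_odd {J : ℝ} (hJ : 0 ≤ J) :
    ∑' n : ℕ, wt J (2 * n + 1) = ENNReal.ofReal (Real.sinh J) := by
  unfold wt
  rw [← (Real.hasSum_sinh J).tsum_eq, ENNReal.ofReal_tsum_of_nonneg]
  · intro n; positivity
  · exact (Real.hasSum_sinh J).summable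

lemma cast_even (n : ℕ) : ((2 * n : ℕ) : ZMod 2) = 0 := by
  have : ((2 : ℕ) : ZMod 2) = 0 := by decide
  push_cast at *
  rw [this, zero_mul]

lemma cast_odd (n : ℕ) : ((2 * n + 1 : ℕ) : ZMod 2) = 1 := by
  have : ((2 : ℕ) : ZMod 2) = 0 := by decide
  push_cast at *
  rw [this, zero_mul, zero_add]

lemma zmod2_cases (q : ZMod 2) : q = 0 ∨ q = 1 := by
  revert q; decide

lemma tsum_parity {J : ℝ} (hJ : 0 ≤ J) (q : ZMod 2) :
    ∑' k : ℕ, (if (k : ZMod 2) = q then wt J k else 0) = ENNReal.ofReal (CS J q) := by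
  rw [← tsum_even_add_odd ENNReal.summable ENNReal.summable]
  simp only [cast_even, cast_odd]
  rcases zmod2_cases q with rfl | rfl
  · simp [CS, tsum_even hJ]
  · simp [CS, tsum_odd hJ]

lemma par_cls (k : ℕ) : par (cls k) = (k : ZMod 2) := by
  unfold cls par
  split_ifs with h0 h1 h2
  · subst h0; simp
  · subst h1; simp
  · obtain ⟨m, rfl⟩ : ∃ m, k = 2 * m := ⟨k / 2, by omega⟩
    rw [cast_even]; decide
  · obtain ⟨m, rfl⟩ : ∃ m, k = 2 * m + 1 := ⟨k / 2, by omega⟩
    rw [cast_odd]; decide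

lemma W_nonneg {J : ℝ} (hJ : 0 ≤ J) (c : Fin 4) : 0 ≤ W J c := by
  unfold W
  split_ifs
  · exact zero_le_one
  · exact hJ
  · have := Real.one_le_cosh J; linarith
  · have := Real.self_le_sinh_iff.2 hJ; linarith

lemma tsum_cls {J : ℝ} (hJ : 0 ≤ J) (c : Fin 4) :
    ∑' k : ℕ, (if cls k = c then wt J k else 0) = ENNReal.ofReal (W J c) := by
  have k0 : ∑' k : ℕ, (if cls k = 0 then wt J k else 0) = ENNReal.ofReal 1 := by
    rw [tsum_eq_single 0]
    · simp [cls, wt]
    · intro k hk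
      rw [if_neg]
      unfold cls
      split_ifs <;> simp_all
  have k1 : ∑' k : ℕ, (if cls k = 1 then wt J k else 0) = ENNReal.ofReal J := by
    rw [tsum_eq_single 1]
    · simp [cls, wt]
    · intro k hk
      rw [if_neg]
      unfold cls
      split_ifs <;> simp_all
  have e0 := tsum_parity hJ 0
  have e1 := tsum_parity hJ 1
  have s0 : ∀ k : ℕ, (if (k : ZMod 2) = 0 then wt J k else 0) =
      (if cls k = 0 then wt J k else 0) + (if cls k = 2 then wt J k else 0) := by
    intro k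
    rw [← par_cls k]
    generalize cls k = c
    have p0 : par 0 = 0 := by decide
    have p1 : par 1 = 1 := by decide
    have p2 : par 2 = 0 := by decide
    have p3 : par 3 = 1 := by decide
    have c4 : c = 0 ∨ c = 1 ∨ c = 2 ∨ c = 3 := by revert c; decide
    rcases c4 with rfl | rfl | rfl | rfl
    · rw [p0]; simp
    · rw [p1]; simp
    · rw [p2]; simp
    · rw [p3]; simp
  have s1 : ∀ k : ℕ, (if (k : ZMod 2) = 1 then wt J k else 0) =
      (if cls k = 1 then wt J k else 0) + (if cls k = 3 then wt J k else 0) := by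
    intro k
    rw [← par_cls k]
    generalize cls k = c
    have p0 : par 0 = 0 := by decide
    have p1 : par 1 = 1 := by decide
    have p2 : par 2 = 0 := by decide
    have p3 : par 3 = 1 := by decide
    have c4 : c = 0 ∨ c = 1 ∨ c = 2 ∨ c = 3 := by revert c; decide
    rcases c4 with rfl | rfl | rfl | rfl
    · rw [p0]; simp
    · rw [p1]; simp
    · rw [p2]; simp
    · rw [p3]; simp
  simp only [s0, s1, ENNReal.tsum_add, k0, k1] at e0 e1
  have c4 : c = 0 ∨ c = 1 ∨ c = 2 ∨ c = 3 := by revert c; decide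
  rcases c4 with rfl | rfl | rfl | rfl
  · simpa [W] using k0
  · simpa [W] using k1
  · have : ENNReal.ofReal (W J 2) = ENNReal.ofReal (CS J 0) - ENNReal.ofReal 1 := by
      rw [← ENNReal.ofReal_sub _ zero_le_one]; simp [W, CS]
    rw [this, ← e0, ENNReal.add_sub_cancel_left ENNReal.ofReal_ne_top]
  · have : ENNReal.ofReal (W J 3) = ENNReal.ofReal (CS J 1) - ENNReal.ofReal J := by
      rw [← ENNReal.ofReal_sub _ hJ]; simp [W, CS]
    rw [this, ← e1, ENNReal.add_sub_cancel_left ENNReal.ofReal_ne_top]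

/-- The edge factor at parity `q`. -/
noncomputable def AA (J : ℝ) (inD : Prop) [Decidable inD] (c : Fin 4) (q : ZMod 2) : ℝ :=
  if inD then (if par c = q then W J c else 0) else CS J q

lemma AA_nonneg {J : ℝ} (hJ : 0 ≤ J) (inD : Prop) [Decidable inD] (c : Fin 4) (q : ZMod 2) :
    0 ≤ AA J inD c q := by
  unfold AA
  split_ifs
  · exact W_nonneg hJ c
  · exact le_rfl
  · exact CS_nonneg hJ q

lemma tsum_AA {J : ℝ} (hJ : 0 ≤ J) (inD : Prop) [Decidable inD] (c : Fin 4) (q : ZMod 2) :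
    ∑' k : ℕ, (if (k : ZMod 2) = q ∧ (inD → cls k = c) then wt J k else 0) =
      ENNReal.ofReal (AA J inD c q) := by
  unfold AA
  by_cases h : inD
  · simp only [h, if_true, true_imp_iff]
    by_cases hq : par c = q
    · rw [if_pos hq, ← tsum_cls hJ c]
      congr 1
      ext k
      by_cases hk : cls k = c
      · rw [if_pos hk, if_pos ⟨by rw [← par_cls, hk, hq], hk⟩]
      · rw [if_neg hk, if_neg (fun h => hk h.2)]
    · rw [if_neg hq, ENNReal.ofReal_zero]
      rw [ENNReal.tsum_eq_zero]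
      intro k
      rw [if_neg]
      rintro ⟨h1, h2⟩
      exact hq (by rw [← h1, ← par_cls, h2])
  · simp only [h, if_false, false_imp_iff, and_true]
    exact tsum_parity hJ q

/-! ### The mass of a class event -/

section mass

variable {d n : ℕ}

/-- Parity at a vertex. -/
noncomputable def spar (p : En d n → ZMod 2) (x : V d) : ZMod 2 := by
  classical
  exact ∑ e : En d n, if src e.1 = x ∨ tgt e.1 = x then p e else 0

lemma z2_add (a b : ZMod 2) : a + b = 0 ↔ b = a := by
  revert a b; decide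

lemma sourceless_iff (c : Cur d n) :
    Sourceless c ↔ ∀ x : Lam d n, (c.2 x : ZMod 2) = spar (fun e => (c.1 e : ZMod 2)) x.1 := by
  classical
  unfold Sourceless spar
  refine forall_congr' fun x => ?_
  rw [← ZMod.natCast_eq_zero_iff_even]
  push_cast
  rw [z2_add]

lemma ofReal_curWeight {β h : ℝ} (hβ : 0 ≤ β) (hh : 0 ≤ β * h) (c : Cur d n) :
    ENNReal.ofReal (curWeight β h c) = (∏ e, wt β (c.1 e)) * ∏ x, wt (β * h) (c.2 x) := by
  unfold curWeight wt
  rw [ENNReal.ofReal_mul (Finset.prod_nonneg fun e _ => by positivity),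
    ENNReal.ofReal_prod_of_nonneg (fun e _ => by positivity),
    ENNReal.ofReal_prod_of_nonneg (fun e _ => by positivity)]

open Classical in
lemma curMeas_apply (β h : ℝ) (A : Set (Cur d n)) :
    curMeas d n β h A =
      ∑' c : Cur d n, if Sourceless c ∧ c ∈ A then ENNReal.ofReal (curWeight β h c) else 0 := by
  unfold curMeas
  rw [Measure.sum_apply _ (MeasurableSet.of_discrete)]
  congr 1
  ext c
  rw [Measure.smul_apply, Measure.dirac_apply' _ (MeasurableSet.of_discrete)]
  by_cases h1 : Sourceless c <;> by_cases h2 : c ∈ A <;> simp [h1, h2]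

open Classical in
/-- The class event. -/
def clsEv (D : Finset (Ed d)) (κ : X d) : Set (Cur d n) :=
  {c | ∀ e : En d n, e.1 ∈ D → cls (c.1 e) = κ e.1}

open Classical in
lemma curMeas_clsEv {β h : ℝ} (hβ : 0 ≤ β) (hh : 0 ≤ β * h) (D : Finset (Ed d)) (κ : X d) :
    curMeas d n β h (clsEv D κ) =
      ENNReal.ofReal (∑ p : En d n → ZMod 2,
        (∏ e : En d n, AA β (e.1 ∈ D) (κ e.1) (p e)) *
          ∏ x : Lam d n, CS (β * h) (spar p x.1)) := by
  rw [curMeas_apply]
  have key : ∀ c : Cur d n,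
      (if Sourceless c ∧ c ∈ clsEv D κ then ENNReal.ofReal (curWeight β h c) else 0) =
      ∑ p : En d n → ZMod 2,
        (∏ e : En d n, (if ((c.1 e : ℕ) : ZMod 2) = p e ∧ (e.1 ∈ D → cls (c.1 e) = κ e.1)
          then wt β (c.1 e) else 0)) *
        ∏ x : Lam d n, (if ((c.2 x : ℕ) : ZMod 2) = spar p x.1 then wt (β * h) (c.2 x) else 0) := by
    intro c
    rw [Finset.sum_eq_single (fun e : En d n => ((c.1 e : ℕ) : ZMod 2))]
    · rw [Finset.prod_ite_zero, Finset.prod_ite_zero]
      simp only [Finset.mem_univ, true_imp_iff, true_and]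
      rw [ofReal_curWeight hβ hh, sourceless_iff]
      by_cases h1 : ∀ x : Lam d n, (c.2 x : ZMod 2) = spar (fun e => (c.1 e : ZMod 2)) x.1
      · by_cases h2 : c ∈ clsEv D κ
        · have h2' : ∀ e : En d n, e.1 ∈ D → cls (c.1 e) = κ e.1 := h2
          rw [if_pos ⟨h1, h2⟩, if_pos h1, if_pos h2']
        · have h2' : ¬ ∀ e : En d n, e.1 ∈ D → cls (c.1 e) = κ e.1 := h2
          rw [if_neg (fun h => h2 h.2), if_neg h2', zero_mul]
      · rw [if_neg (fun h => h1 h.1), if_neg h1, mul_zero]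
    · intro p _ hp
      obtain ⟨e, he⟩ : ∃ e, p e ≠ ((c.1 e : ℕ) : ZMod 2) := by
        by_contra hcon
        push Not at hcon
        exact hp (funext hcon)
      rw [Finset.prod_eq_zero (Finset.mem_univ e), zero_mul]
      rw [if_neg]
      rintro ⟨h1, -⟩
      exact he h1.symm
    · intro h
      exact absurd (Finset.mem_univ _) h
  simp only [key]
  rw [ENNReal.ofReal_sum_of_nonneg]
  · rw [Summable.tsum_finsetSum (fun _ _ => ENNReal.summable)]
    refine Finset.sum_congr rfl fun p _ => ?_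
    rw [ENNReal.ofReal_mul (Finset.prod_nonneg fun e _ => AA_nonneg hβ _ _ _),
      ENNReal.ofReal_prod_of_nonneg (fun e _ => AA_nonneg hβ _ _ _),
      ENNReal.ofReal_prod_of_nonneg (fun x _ => CS_nonneg hh _)]
    simp only [← tsum_AA hβ, ← tsum_parity hh]
    rw [← tsum_pi_prod, ← tsum_pi_prod, ENNReal.tsum_prod']
    simp only [ENNReal.tsum_mul_left, ENNReal.tsum_mul_right]
  · intro p _
    exact mul_nonneg (Finset.prod_nonneg fun e _ => AA_nonneg hβ _ _ _)
      (Finset.prod_nonneg fun x _ => CS_nonneg hh _)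

/-! ### From parities on the edges to subsets -/

lemma bb_apply (e : Ed d) (x : V d) [Decidable (src e = x ∨ tgt e = x)] :
    bb e x = if src e = x ∨ tgt e = x then 1 else 0 := by
  unfold bb de
  rw [Finsupp.add_apply, Finsupp.single_apply, Finsupp.single_apply]
  have := tgt_ne_src e
  by_cases h1 : src e = x
  · have h2 : ¬ tgt e = x := fun h => this (h.trans h1.symm)
    simp [h1, h2]
  · by_cases h2 : tgt e = x <;> simp [h1, h2]

lemma mem_En {e : Ed d} : e ∈ En d n ↔ src e ∈ Lam d n ∧ tgt e ∈ Lam d n := by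
  unfold En
  rw [Finset.mem_filter, Finset.mem_product]
  simp [src]

open Classical in
/-- The parity configuration built from a class configuration on `D` and a set of odd edges. -/
noncomputable def PP (D : Finset (Ed d)) (κ : X d) (S : Finset (Ed d)) (e : Ed d) : ZMod 2 :=
  if e ∈ D then par (κ e) else if e ∈ S then 1 else 0

lemma bd_add (D : Finset (Ed d)) (hD : D ⊆ En d n) (κ : X d) (S : Finset (Ed d))
    (hS : S ⊆ En d n \ D) (x : V d) :
    (bd D (pc κ) + ∑ e ∈ S, bb e) x = ∑ e ∈ En d n, PP D κ S e * bb e x := by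
  classical
  rw [Finsupp.add_apply, Finsupp.finsetSum_apply]
  unfold bd
  rw [Finsupp.finsetSum_apply]
  rw [← Finset.sum_sdiff hD (f := fun e => PP D κ S e * bb e x),
    ← Finset.sum_sdiff hS (f := fun e => PP D κ S e * bb e x)]
  have h1 : ∑ e ∈ (En d n \ D) \ S, PP D κ S e * bb e x = 0 := by
    refine Finset.sum_eq_zero fun e he => ?_
    rw [Finset.mem_sdiff, Finset.mem_sdiff] at he
    simp [PP, he.1.2, he.2]
  have h2 : ∑ e ∈ S, PP D κ S e * bb e x = ∑ e ∈ S, bb e x := by
    refine Finset.sum_congr rfl fun e he => ?_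
    have := hS he
    rw [Finset.mem_sdiff] at this
    simp [PP, this.2, he]
  have h3 : ∑ e ∈ D, PP D κ S e * bb e x = ∑ e ∈ D, (pc κ e • bb e) x := by
    refine Finset.sum_congr rfl fun e he => ?_
    simp [PP, he, pc]
  rw [h1, h2, h3, zero_add, add_comm]

lemma spar_eq (P : Ed d → ZMod 2) (x : V d) :
    spar (fun e : En d n => P e.1) x = ∑ e ∈ En d n, P e * bb e x := by
  classical
  unfold spar
  rw [← Finset.sum_coe_sort (En d n)]
  refine Finset.sum_congr rfl fun e _ => ?_
  rw [bb_apply]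
  split_ifs <;> simp

lemma Gam_eq (t : ℝ) (D : Finset (Ed d)) (hD : D ⊆ En d n) (κ : X d) (S : Finset (Ed d))
    (hS : S ⊆ En d n \ D) :
    Gam t (Lam d n) (bd D (pc κ) + ∑ e ∈ S, bb e) =
      ∏ x : Lam d n, CS t (spar (fun e : En d n => PP D κ S e.1) x.1) := by
  classical
  unfold Gam
  rw [if_pos]
  · rw [← Finset.prod_coe_sort (Lam d n)]
    refine Finset.prod_congr rfl fun x _ => ?_
    rw [spar_eq, ← bd_add D hD κ S hS x.1]
    rfl
  · intro x hx
    by_contra hcon
    rw [Finsupp.mem_support_iff] at hx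
    apply hx
    rw [bd_add D hD κ S hS x]
    refine Finset.sum_eq_zero fun e he => ?_
    rw [bb_apply, if_neg, mul_zero]
    rw [mem_En] at he
    rintro (h | h)
    · exact hcon (h ▸ he.1)
    · exact hcon (h ▸ he.2)

open Classical in
lemma sum_parity (β t : ℝ) (D : Finset (Ed d)) (hD : D ⊆ En d n) (κ : X d) :
    ∑ p : En d n → ZMod 2, (∏ e : En d n, AA β (e.1 ∈ D) (κ e.1) (p e)) *
          ∏ x : Lam d n, CS t (spar p x.1) =
      (∏ e ∈ D, W β (κ e)) * ZZ β t (En d n \ D) (Lam d n) (bd D (pc κ)) := by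
  unfold ZZ
  rw [Finset.mul_sum]
  symm
  refine Finset.sum_of_injOn (fun S => fun e : En d n => PP D κ S e.1) ?_ ?_ ?_ ?_
  · intro S hS S' hS' hEq
    rw [Finset.mem_coe, Finset.mem_powerset] at hS hS'
    have hEq' : ∀ e : En d n, PP D κ S e.1 = PP D κ S' e.1 := fun e => congrFun hEq e
    ext e
    constructor
    · intro he
      have h1 := hS he
      rw [Finset.mem_sdiff] at h1
      have h2 := hEq' ⟨e, h1.1⟩
      by_contra h3
      simp [PP, h1.2, he, h3] at h2
    · intro he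
      have h1 := hS' he
      rw [Finset.mem_sdiff] at h1
      have h2 := hEq' ⟨e, h1.1⟩
      by_contra h3
      simp [PP, h1.2, he, h3] at h2
  · intro S _
    exact Finset.mem_coe.2 (Finset.mem_univ _)
  · intro p _ hp
    by_cases hpD : ∀ e : En d n, e.1 ∈ D → par (κ e.1) = p e
    · exfalso
      apply hp
      refine ⟨(En d n \ D).filter (fun e => ∃ h : e ∈ En d n, p ⟨e, h⟩ = 1), ?_, ?_⟩
      · rw [Finset.mem_coe, Finset.mem_powerset]
        exact Finset.filter_subset _ _
      · funext e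
        by_cases heD : e.1 ∈ D
        · simp only [PP, heD, if_true]
          exact hpD e heD
        · simp only [PP, heD, if_false, Finset.mem_filter, Finset.mem_sdiff, e.2, not_false_iff,
            and_self, true_and, exists_true_left]
          rcases zmod2_cases (p e) with h | h
          · simp [h]
          · simp [h]
    · push Not at hpD
      obtain ⟨e, heD, he⟩ := hpD
      rw [Finset.prod_eq_zero (Finset.mem_univ e), zero_mul]
      simp [AA, heD, he]
  · intro S hS
    rw [Finset.mem_powerset] at hS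
    rw [Gam_eq t D hD κ S hS]
    rw [← mul_assoc]
    congr 1
    rw [Finset.prod_coe_sort (En d n) (fun e => AA β (e ∈ D) (κ e) (PP D κ S e)),
      ← Finset.prod_sdiff hD, ← Finset.prod_sdiff hS]
    have h1 : ∏ e ∈ (En d n \ D) \ S, AA β (e ∈ D) (κ e) (PP D κ S e) =
        Real.cosh β ^ ((En d n \ D).card - S.card) := by
      rw [← Finset.card_sdiff_of_subset hS]
      rw [Finset.prod_eq_pow_card]
      intro e he
      rw [Finset.mem_sdiff, Finset.mem_sdiff] at he
      simp [AA, PP, he.1.2, he.2, CS]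
    have h2 : ∏ e ∈ S, AA β (e ∈ D) (κ e) (PP D κ S e) = Real.sinh β ^ S.card := by
      rw [Finset.prod_eq_pow_card]
      intro e he
      have := hS he
      rw [Finset.mem_sdiff] at this
      simp [AA, PP, this.2, he, CS]
    have h3 : ∏ e ∈ D, AA β (e ∈ D) (κ e) (PP D κ S e) = ∏ e ∈ D, W β (κ e) := by
      refine Finset.prod_congr rfl fun e he => ?_
      simp [AA, PP, he]
    rw [h1, h2, h3]
    ring

end mass

/-! ### Main statements -/

lemma CS_eq (t : ℝ) (q : ZMod 2) : (if q = 0 then Real.cosh t else Real.sinh t) = CS t q := rfl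

lemma Gam_nonneg {d : ℕ} {t : ℝ} (ht : 0 ≤ t) (Λ : Finset (V d)) (u : U d) : 0 ≤ Gam t Λ u := by
  unfold Gam
  split_ifs
  · exact Finset.prod_nonneg fun x _ => by
      rw [CS_eq]; exact CS_nonneg ht _
  · exact le_rfl

lemma ZZ_nonneg {d : ℕ} (β t : ℝ) (hβ : 0 ≤ β) (ht : 0 ≤ t) (F : Finset (Ed d))
    (Λ : Finset (V d)) (u : U d) : 0 ≤ ZZ β t F Λ u := by
  unfold ZZ
  refine Finset.sum_nonneg fun S _ => ?_
  have h1 := Real.sinh_nonneg_iff.2 hβ
  have h2 := (Real.cosh_pos β).le
  have h3 := Gam_nonneg ht Λ (u + ∑ e ∈ S, bb e)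
  positivity

theorem ZZ_zero_pos {d : ℕ} (β t : ℝ) (hβ : 0 ≤ β) (ht : 0 ≤ t) (F : Finset (Ed d))
    (Λ : Finset (V d)) : 0 < ZZ β t F Λ 0 := by
  unfold ZZ
  refine Finset.sum_pos' (fun S _ => ?_) ⟨∅, Finset.empty_mem_powerset F, ?_⟩
  · have h1 := Real.sinh_nonneg_iff.2 hβ
    have h2 := (Real.cosh_pos β).le
    have h3 := Gam_nonneg ht Λ (0 + ∑ e ∈ S, bb e)
    positivity
  · have h2 := Real.cosh_pos β
    have h3 : 0 < Gam t Λ (0 + ∑ e ∈ (∅ : Finset (Ed d)), bb e) := by
      unfold Gam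
      rw [if_pos (by simp)]
      exact Finset.prod_pos fun x _ => by simp [Real.cosh_pos]
    rw [Finset.card_empty, pow_zero, one_mul]
    exact mul_pos (pow_pos h2 _) h3

lemma curMeas_univ (d n : ℕ) (β h : ℝ) (hβ : 0 ≤ β) (hh : 0 ≤ β * h) :
    curMeas d n β h Set.univ =
      ENNReal.ofReal (ZZ β (β * h) (En d n) (Lam d n) 0) := by
  classical
  have h1 := curMeas_clsEv (d := d) (n := n) hβ hh ∅ (fun _ => 0)
  rw [sum_parity β (β * h) ∅ (Finset.empty_subset _) (fun _ => 0)] at h1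
  have h2 : clsEv (n := n) (∅ : Finset (Ed d)) (fun _ => 0) = Set.univ := by
    unfold clsEv
    simp
  rw [h2] at h1
  rw [h1]
  simp [bd]

theorem curLaw_prob (d n : ℕ) (β h : ℝ) (hβ : 0 < β) (hh : 0 ≤ h) :
    IsProbabilityMeasure (curLaw d n β h) := by
  constructor
  unfold curLaw
  have h0 : 0 ≤ β * h := mul_nonneg hβ.le hh
  rw [Measure.smul_apply, curMeas_univ d n β h hβ.le h0, smul_eq_mul]
  refine ENNReal.inv_mul_cancel ?_ ENNReal.ofReal_ne_top
  have := ZZ_zero_pos β (β * h) hβ.le h0 (En d n) (Lam d n)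
  exact (ENNReal.ofReal_pos.2 this).ne'

theorem curLaw_class (d n : ℕ) (β h : ℝ) (hβ : 0 < β) (hh : 0 ≤ h) (D : Finset (Ed d))
    (hD : D ⊆ En d n) (κ : X d) :
    curLaw d n β h {c | ∀ e (he : e ∈ D), cls (c.1 ⟨e, hD he⟩) = κ e} =
      ENNReal.ofReal ((∏ e ∈ D, W β (κ e)) *
        ZZ β (β * h) (En d n \ D) (Lam d n) (bd D (pc κ)) /
        ZZ β (β * h) (En d n) (Lam d n) 0) := by
  classical
  have h0 : 0 ≤ β * h := mul_nonneg hβ.le hh
  have hev : {c : Cur d n | ∀ e (he : e ∈ D), cls (c.1 ⟨e, hD he⟩) = κ e} = clsEv D κ := by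
    ext c
    constructor
    · intro hc e he
      exact hc e.1 he
    · intro hc e he
      exact hc ⟨e, hD he⟩ he
  rw [hev]
  unfold curLaw
  rw [Measure.smul_apply, curMeas_univ d n β h hβ.le h0, smul_eq_mul,
    curMeas_clsEv hβ.le h0 D κ, sum_parity β (β * h) D hD κ, mul_comm, ← div_eq_mul_inv,
    ENNReal.ofReal_div_of_pos (ZZ_zero_pos β (β * h) hβ.le h0 (En d n) (Lam d n))]

end Pool.Agent.Hhelper98.RC
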